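import Pool.Agent.N89.HX.Stm

/-!
# HX/NF: Noether's irreducibility forms for bivariate monic polynomials (helper568, project HX)
-/

set_option autoImplicit false

namespace Pool.Agent.N568.HX.NF

set_option linter.style.haveILetI false

open Polynomial Pool.Agent.N89.HX

attribute [local instance] Polynomial.algebra

section basic

variable {A A' : Type} [CommRing A] [CommRing A'] {D B : ℕ}

lemma bp_degree_lt (h : Fin D → Fin (B + 1) → A) :
    degree (∑ i, C (∑ j, C (h i j) * X ^ (j : ℕ)) * X ^ (i : ℕ) : A[X][X]) < (D : ℕ) :=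
  degree_sum_fin_lt (fun i => ∑ j, C (h i j) * X ^ (j : ℕ))

lemma bp_monic (h : Fin D → Fin (B + 1) → A) : (bp h).Monic := by
  unfold bp
  exact monic_X_pow_add (bp_degree_lt h)

lemma bp_natDegree [Nontrivial A] (h : Fin D → Fin (B + 1) → A) : (bp h).natDegree = D := by
  unfold bp
  rw [natDegree_add_eq_left_of_degree_lt]
  · exact natDegree_X_pow D
  · rw [degree_X_pow]; exact bp_degree_lt h

lemma bp_map (φ : A →+* A') (h : Fin D → Fin (B + 1) → A) :
    (bp h).map (mapRingHom φ) = bp (fun i j => φ (h i j)) := by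
  unfold bp
  simp [Polynomial.map_sum, Polynomial.map_add, Polynomial.map_mul, Polynomial.map_pow]

/-- a monic polynomial in two variables is `bp` of its coefficients -/
lemma eq_bp [Nontrivial A] (p : A[X][X]) (hp : p.Monic) (hD : p.natDegree = D)
    (hB : ∀ i, (p.coeff i).natDegree ≤ B) :
    p = bp (fun (i : Fin D) (j : Fin (B + 1)) => (p.coeff i).coeff j) := by
  subst hD
  unfold bp
  conv_lhs => rw [hp.as_sum]
  congr 1
  rw [Finset.sum_range]
  refine Finset.sum_congr rfl fun i _ => ?_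
  congr 2
  conv_lhs => rw [as_sum_range_C_mul_X_pow' (p.coeff i) (n := B + 1) (Nat.lt_succ_of_le (hB i))]
  rw [Finset.sum_range]

lemma sum_coeff (B : ℕ) (g : Fin (B + 1) → A) (j : Fin (B + 1)) :
    (∑ j : Fin (B + 1), C (g j) * X ^ (j : ℕ) : A[X]).coeff j = g j := by
  rw [finsetSum_coeff, Finset.sum_eq_single j]
  · simp
  · intro b _ hb
    rw [coeff_C_mul, coeff_X_pow, if_neg (fun h => hb (Fin.ext h.symm)), mul_zero]
  · intro hj; exact absurd (Finset.mem_univ _) hj

lemma sum_natDegree_le (B : ℕ) (g : Fin (B + 1) → A) :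
    (∑ j : Fin (B + 1), C (g j) * X ^ (j : ℕ) : A[X]).natDegree ≤ B := by
  refine natDegree_sum_le_of_forall_le _ _ fun j _ => ?_
  refine (natDegree_C_mul_X_pow_le _ _).trans (by omega)

lemma bp_coeff [Nontrivial A] (h : Fin D → Fin (B + 1) → A) (i : Fin D) :
    (bp h).coeff i = ∑ j, C (h i j) * X ^ (j : ℕ) := by
  unfold bp
  rw [coeff_add, coeff_X_pow, if_neg (by omega), zero_add, finsetSum_coeff,
    Finset.sum_eq_single i]
  · rw [coeff_C_mul, coeff_X_pow, if_pos rfl, mul_one]
  · intro b _ hb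
    rw [coeff_C_mul, coeff_X_pow, if_neg (fun h => hb (Fin.ext h.symm)), mul_zero]
  · intro hj; exact absurd (Finset.mem_univ _) hj

lemma bp_coeff_coeff [Nontrivial A] (h : Fin D → Fin (B + 1) → A) (i : Fin D) (j : Fin (B + 1)) :
    ((bp h).coeff i).coeff j = h i j := by
  rw [bp_coeff, sum_coeff]

lemma bp_coeff_natDegree_le [Nontrivial A] (h : Fin D → Fin (B + 1) → A) (i : ℕ) :
    ((bp h).coeff i).natDegree ≤ B := by
  rcases lt_trichotomy i D with hi | hi | hi
  · have := bp_coeff h ⟨i, hi⟩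
    simp only at this
    rw [this]
    exact sum_natDegree_le _ _
  · have h1 : (bp h).coeff i = 1 := by
      have := (bp_monic h).coeff_natDegree
      rw [bp_natDegree] at this
      rw [hi, this]
    rw [h1]; simp
  · rw [coeff_eq_zero_of_natDegree_lt (by rw [bp_natDegree]; exact hi)]; simp

lemma mul_coeff_natDegree_le (a b : A[X][X]) (B₁ B₂ : ℕ) (ha : ∀ i, (a.coeff i).natDegree ≤ B₁)
    (hb : ∀ i, (b.coeff i).natDegree ≤ B₂) (i : ℕ) : ((a * b).coeff i).natDegree ≤ B₁ + B₂ := by
  rw [coeff_mul]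
  refine natDegree_sum_le_of_forall_le _ _ fun x _ => ?_
  exact natDegree_mul_le.trans (add_le_add (ha _) (hb _))

/-- the coefficients of the swapped polynomial -/
lemma swap_coeff (p : A[X][X]) (i j : ℕ) :
    ((Bivariate.swap p).coeff j).coeff i = (p.coeff i).coeff j := by
  induction p using Polynomial.induction_on' with
  | add p q hp hq => simp only [map_add, coeff_add, hp, hq]
  | monomial n f =>
    induction f using Polynomial.induction_on' with
    | add p q hp hq => simp only [map_add, coeff_add, hp, hq]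
    | monomial m r =>
      rw [Bivariate.swap_monomial_monomial]
      simp only [coeff_monomial]
      by_cases h1 : m = j <;> by_cases h2 : n = i <;> simp [h1, h2, coeff_monomial]

lemma swap_natDegree_le (p : A[X][X]) :
    (Bivariate.swap p).natDegree ≤ B ↔ ∀ i, (p.coeff i).natDegree ≤ B := by
  constructor
  · intro h i
    rw [natDegree_le_iff_coeff_eq_zero]
    intro j hj
    rw [← swap_coeff, coeff_eq_zero_of_natDegree_lt (lt_of_le_of_lt h hj), coeff_zero]
  · intro h
    rw [natDegree_le_iff_coeff_eq_zero]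
    intro j hj
    ext i
    rw [swap_coeff, coeff_eq_zero_of_natDegree_lt (lt_of_le_of_lt (h i) hj), coeff_zero]

/-- the `X`-degree of the factors -/
lemma factor_bound [IsDomain A] (a b : A[X][X]) (ha : a ≠ 0) (hb : b ≠ 0)
    (h : ∀ i, ((a * b).coeff i).natDegree ≤ B) :
    (∀ i, (a.coeff i).natDegree ≤ B) ∧ (∀ i, (b.coeff i).natDegree ≤ B) := by
  have hsa : Bivariate.swap a ≠ 0 := by
    intro h0; exact ha ((map_eq_zero_iff _ (Bivariate.swap (R := A)).injective).1 h0)
  have hsb : Bivariate.swap b ≠ 0 := by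
    intro h0; exact hb ((map_eq_zero_iff _ (Bivariate.swap (R := A)).injective).1 h0)
  have h2 := (swap_natDegree_le (a * b)).2 h
  rw [map_mul, natDegree_mul hsa hsb] at h2
  exact ⟨(swap_natDegree_le a).1 (by omega), (swap_natDegree_le b).1 (by omega)⟩

end basic

/-! ### The generic product -/

/-- the variables of the generic factors -/
abbrev V (m n B : ℕ) : Type := (Fin m × Fin (B + 1)) ⊕ (Fin n × Fin (B + 1))

/-- the ring of the generic factors -/
abbrev T (m n B : ℕ) : Type := MvPolynomial (V m n B) ℤ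

/-- the ring of the generic product -/
abbrev S (D B : ℕ) : Type := MvPolynomial (Fin D × Fin (2 * B + 1)) ℤ

noncomputable def ga (m n B : ℕ) : Fin m → Fin (B + 1) → T m n B :=
  fun i j => MvPolynomial.X (Sum.inl (i, j))

noncomputable def gb (m n B : ℕ) : Fin n → Fin (B + 1) → T m n B :=
  fun i j => MvPolynomial.X (Sum.inr (i, j))

/-- the coefficients of the generic product -/
noncomputable def gc (D m n B : ℕ) : Fin D → Fin (2 * B + 1) → T m n B :=
  fun i j => ((bp (ga m n B) * bp (gb m n B)).coeff i).coeff j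

noncomputable def φ (D m n B : ℕ) : S D B →+* T m n B :=
  (MvPolynomial.aeval (fun ij : Fin D × Fin (2 * B + 1) => gc D m n B ij.1 ij.2) :
    S D B →ₐ[ℤ] T m n B).toRingHom

lemma φ_X (D m n B : ℕ) (i : Fin D) (j : Fin (2 * B + 1)) :
    φ D m n B (MvPolynomial.X (i, j)) = gc D m n B i j := by
  simp [φ]

lemma gprod {D m n : ℕ} (B : ℕ) (hD : m + n = D) :
    bp (ga m n B) * bp (gb m n B) = bp (gc D m n B) := by
  have h1 : (bp (ga m n B) * bp (gb m n B)).Monic := (bp_monic _).mul (bp_monic _)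
  have h2 : (bp (ga m n B) * bp (gb m n B)).natDegree = D := by
    rw [(bp_monic _).natDegree_mul (bp_monic _), bp_natDegree, bp_natDegree, hD]
  exact eq_bp _ h1 h2 fun i => by
    have := mul_coeff_natDegree_le (bp (ga m n B)) (bp (gb m n B)) B B
      (bp_coeff_natDegree_le _) (bp_coeff_natDegree_le _) i
    omega

lemma φ_isIntegral {D m n : ℕ} (B : ℕ) (hD : m + n = D) : (φ D m n B).IsIntegral := by
  letI : Algebra (S D B) (T m n B) := (φ D m n B).toAlgebra
  have key : ∀ q : (T m n B)[X][X], q.Monic → q ∣ bp (gc D m n B) → ∀ i j,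
      IsIntegral (S D B) ((q.coeff i).coeff j) := by
    intro q hq hdvd i j
    have h1 : bp (gc D m n B) = (bp (fun (i : Fin D) (j : Fin (2 * B + 1)) =>
        (MvPolynomial.X (i, j) : S D B))).map (algebraMap (S D B)[X] (T m n B)[X]) := by
      have h0 := bp_map (φ D m n B) (fun (i : Fin D) (j : Fin (2 * B + 1)) =>
        (MvPolynomial.X (i, j) : S D B))
      have h3 : (algebraMap (S D B)[X] (T m n B)[X]) = mapRingHom (φ D m n B) := rfl
      rw [h3, h0]
      congr 1
      funext i j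
      rw [φ_X]
    rw [h1] at hdvd
    have h2 := Polynomial.isIntegral_coeff_of_dvd _ q (bp_monic _) hq hdvd i
    exact (Polynomial.isIntegral_iff_isIntegral_coeff.1 h2) j
  have hX : ∀ v : V m n B, IsIntegral (S D B) (MvPolynomial.X v : T m n B) := by
    intro v
    rcases v with ⟨i, j⟩ | ⟨i, j⟩
    · have h1 := key (bp (ga m n B)) (bp_monic _) ⟨_, (gprod B hD).symm⟩ i j
      rwa [bp_coeff_coeff] at h1
    · have h1 := key (bp (gb m n B)) (bp_monic _)
        ⟨bp (ga m n B), (gprod B hD).symm.trans (mul_comm _ _)⟩ i j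
      rwa [bp_coeff_coeff] at h1
  intro t
  change IsIntegral (S D B) t
  induction t using MvPolynomial.induction_on with
  | C a =>
    have : (MvPolynomial.C a : T m n B) = algebraMap (S D B) (T m n B) (MvPolynomial.C a) := by
      change _ = φ D m n B (MvPolynomial.C a)
      simp [φ]
    rw [this]
    exact isIntegral_algebraMap
  | add p q hp hq => exact hp.add hq
  | mul_X p v hp => exact hp.mul (hX v)

/-! ### Extension of homomorphisms to algebraically closed fields -/

lemma extend {R R' Ω : Type} [CommRing R] [CommRing R'] [Field Ω] [IsAlgClosed Ω]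
    (f : R →+* R') (hf : f.IsIntegral) (χ : R →+* Ω) (hχ : RingHom.ker f ≤ RingHom.ker χ) :
    ∃ ψ : R' →+* Ω, ψ.comp f = χ := by
  letI : Algebra R R' := f.toAlgebra
  haveI : Algebra.IsIntegral R R' := ⟨hf⟩
  haveI hP : (RingHom.ker χ).IsPrime := RingHom.ker_isPrime χ
  obtain ⟨Q, -, hQ, hQP⟩ := Ideal.exists_ideal_over_prime_of_isIntegral (S := R')
    (RingHom.ker χ) ⊥ (by
      rw [← RingHom.ker_eq_comap_bot]
      exact hχ)
  haveI := hQ
  letI : Algebra (R ⧸ RingHom.ker χ) (R' ⧸ Q) :=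
    (Ideal.quotientMap Q (algebraMap R R') (le_of_eq hQP.symm)).toAlgebra
  letI : Algebra (R ⧸ RingHom.ker χ) Ω := (RingHom.kerLift χ).toAlgebra
  have hinj : Function.Injective (algebraMap (R ⧸ RingHom.ker χ) (R' ⧸ Q)) := by
    apply Ideal.quotientMap_injective'
    exact le_of_eq hQP
  have hinj2 : Function.Injective (algebraMap (R ⧸ RingHom.ker χ) Ω) :=
    RingHom.kerLift_injective χ
  haveI : Algebra.IsIntegral (R ⧸ RingHom.ker χ) (R' ⧸ Q) := by
    constructor
    intro x
    obtain ⟨x, rfl⟩ := Ideal.Quotient.mk_surjective x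
    obtain ⟨p, hp, hx⟩ := hf x
    refine ⟨p.map (Ideal.Quotient.mk _), hp.map _, ?_⟩
    rw [eval₂_map]
    have : (algebraMap (R ⧸ RingHom.ker χ) (R' ⧸ Q)).comp (Ideal.Quotient.mk _) =
        (Ideal.Quotient.mk Q).comp f := by
      ext r
      change Ideal.quotientMap Q (algebraMap R R') (le_of_eq hQP.symm) (Ideal.Quotient.mk _ r) = _
      rw [Ideal.quotientMap_mk]
      rfl
    rw [this, ← hom_eval₂, hx, map_zero]
  haveI : IsDomain (R ⧸ RingHom.ker χ) := Ideal.Quotient.isDomain _
  haveI : IsDomain (R' ⧸ Q) := Ideal.Quotient.isDomain _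
  haveI : Module.IsTorsionFree (R ⧸ RingHom.ker χ) (R' ⧸ Q) :=
    Module.isTorsionFree_iff_algebraMap_injective.2 hinj
  haveI : Module.IsTorsionFree (R ⧸ RingHom.ker χ) Ω :=
    Module.isTorsionFree_iff_algebraMap_injective.2 hinj2
  let ψ := (IsAlgClosed.lift : (R' ⧸ Q) →ₐ[R ⧸ RingHom.ker χ] Ω)
  refine ⟨ψ.toRingHom.comp (Ideal.Quotient.mk Q), ?_⟩
  ext r
  have h1 : Ideal.Quotient.mk Q (f r) =
      algebraMap (R ⧸ RingHom.ker χ) (R' ⧸ Q) (Ideal.Quotient.mk _ r) := by
    change _ = Ideal.quotientMap Q (algebraMap R R') (le_of_eq hQP.symm) (Ideal.Quotient.mk _ r)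
    rw [Ideal.quotientMap_mk]
    rfl
  change ψ (Ideal.Quotient.mk Q (f r)) = χ r
  rw [h1, ψ.commutes]
  exact RingHom.kerLift_mk χ r

/-! ### The points of the variety of the products -/

/-- the point of the space of polynomials given by `h` -/
noncomputable def χ {Ω : Type} [Field Ω] {D B : ℕ} (h : Fin D → Fin (B + 1) → Ω) : S D B →+* Ω :=
  (MvPolynomial.aeval (fun ij : Fin D × Fin (2 * B + 1) =>
    (((bp h).coeff ij.1).coeff ij.2 : Ω)) : S D B →ₐ[ℤ] Ω).toRingHom

lemma χ_X {Ω : Type} [Field Ω] {D B : ℕ} (h : Fin D → Fin (B + 1) → Ω) (i : Fin D)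
    (j : Fin (2 * B + 1)) : χ h (MvPolynomial.X (i, j)) = ((bp h).coeff i).coeff j := by
  simp [χ]

lemma S_hom_ext {D B : ℕ} {R : Type} [CommRing R] (f g : S D B →+* R)
    (h : ∀ i j, f (MvPolynomial.X (i, j)) = g (MvPolynomial.X (i, j))) : f = g := by
  apply MvPolynomial.ringHom_ext
  · intro r
    simp
  · rintro ⟨i, j⟩
    exact h i j

lemma red_iff {Ω : Type} [Field Ω] [IsAlgClosed Ω] {D m n B : ℕ} (hD : m + n = D)
    (h : Fin D → Fin (B + 1) → Ω) :
    RingHom.ker (φ D m n B) ≤ RingHom.ker (χ h) ↔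
      ∃ a b : Polynomial (Polynomial Ω), a.Monic ∧ b.Monic ∧ a.natDegree = m ∧ b.natDegree = n ∧ a * b = bp h := by
  constructor
  · intro hk
    obtain ⟨ψ, hψ⟩ := extend (φ D m n B) (φ_isIntegral B hD) (χ h) hk
    refine ⟨bp (fun i j => ψ (ga m n B i j)), bp (fun i j => ψ (gb m n B i j)), bp_monic _,
      bp_monic _, bp_natDegree _, bp_natDegree _, ?_⟩
    rw [← bp_map, ← bp_map, ← Polynomial.map_mul, gprod B hD, bp_map]
    have h1 : (fun (i : Fin D) (j : Fin (2 * B + 1)) => ψ (gc D m n B i j)) =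
        fun (i : Fin D) (j : Fin (2 * B + 1)) => ((bp h).coeff i).coeff j := by
      funext i j
      rw [← φ_X, ← χ_X h i j, ← hψ]
      rfl
    rw [h1]
    exact (eq_bp (bp h) (bp_monic h) (bp_natDegree h) fun i =>
      (bp_coeff_natDegree_le h i).trans (by omega)).symm
  · rintro ⟨a, b, ha, hb, ham, hbn, hab⟩
    obtain ⟨hBa, hBb⟩ := factor_bound (B := B) a b ha.ne_zero hb.ne_zero (fun i => by
      rw [hab]; exact bp_coeff_natDegree_le h i)
    have hea := eq_bp (D := m) (B := B) a ha ham hBa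
    have heb := eq_bp (D := n) (B := B) b hb hbn hBb
    let ψ : T m n B →+* Ω := (MvPolynomial.aeval (Sum.elim
      (fun ij : Fin m × Fin (B + 1) => ((a.coeff ij.1).coeff ij.2 : Ω))
      (fun ij : Fin n × Fin (B + 1) => ((b.coeff ij.1).coeff ij.2 : Ω))) :
        T m n B →ₐ[ℤ] Ω).toRingHom
    have h1 : (bp (ga m n B)).map (mapRingHom ψ) = a := by
      rw [bp_map, hea]
      congr 1
      funext i j
      simp [ψ, ga]
    have h2 : (bp (gb m n B)).map (mapRingHom ψ) = b := by
      rw [bp_map, heb]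
      congr 1
      funext i j
      simp [ψ, gb]
    have h3 : ψ.comp (φ D m n B) = χ h := by
      apply S_hom_ext
      intro i j
      rw [χ_X, ← hab, ← h1, ← h2, ← Polynomial.map_mul, coeff_map]
      rw [coe_mapRingHom, coeff_map]
      change ψ (φ D m n B _) = _
      rw [φ_X]
      rfl
    intro x hx
    rw [RingHom.mem_ker] at hx ⊢
    rw [← h3, RingHom.comp_apply, hx, map_zero]

lemma irr_iff {Ω : Type} [Field Ω] [IsAlgClosed Ω] {D B : ℕ} (hD : 1 ≤ D)
    (h : Fin D → Fin (B + 1) → Ω) :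
    Irreducible (bp h) ↔ ∀ k : Fin (D - 1),
      ¬ RingHom.ker (φ D (k + 1) (D - 1 - k) B) ≤ RingHom.ker (χ h) := by
  rw [(bp_monic h).irreducible_iff_natDegree]
  constructor
  · rintro ⟨-, hfac⟩ k hk
    have hk2 := k.2
    obtain ⟨a, b, ha, hb, ham, hbn, hab⟩ := (red_iff (by omega) h).1 hk
    rcases hfac a b ha hb hab with h0 | h0 <;> omega
  · intro hk
    constructor
    · intro h1
      have h2 := bp_natDegree h
      rw [h1, natDegree_one] at h2
      omega
    · intro a b ha hb hab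
      by_contra hcon
      push Not at hcon
      obtain ⟨h1, h2⟩ := hcon
      have h3 : a.natDegree + b.natDegree = D := by
        rw [← ha.natDegree_mul hb, hab, bp_natDegree]
      have hlt : a.natDegree - 1 < D - 1 := by omega
      apply hk ⟨a.natDegree - 1, hlt⟩
      rw [red_iff (by simp only; omega) h]
      exact ⟨a, b, ha, hb, by simp only; omega, by simp only; omega, hab⟩

/-- the substitution of zero for the coefficients of large degree -/
noncomputable def sub (D B : ℕ) : S D B →ₐ[ℤ] MvPolynomial (Fin D × Fin (B + 1)) ℤ :=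
  MvPolynomial.aeval (fun ij : Fin D × Fin (2 * B + 1) =>
    if hlt : (ij.2 : ℕ) < B + 1 then MvPolynomial.X (ij.1, ⟨ij.2, hlt⟩) else 0)

lemma sub_eval {Ω : Type} [Field Ω] {D B : ℕ} (h : Fin D → Fin (B + 1) → Ω) (x : S D B) :
    MvPolynomial.aeval (fun ij : Fin D × Fin (B + 1) => h ij.1 ij.2) (sub D B x) = χ h x := by
  have h1 : ((MvPolynomial.aeval (fun ij : Fin D × Fin (B + 1) => h ij.1 ij.2) :
      MvPolynomial (Fin D × Fin (B + 1)) ℤ →ₐ[ℤ] Ω).toRingHom).comp (sub D B).toRingHom = χ h := by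
    apply S_hom_ext
    intro i j
    rw [χ_X]
    by_cases hlt : (j : ℕ) < B + 1
    · have h2 := bp_coeff_coeff h i ⟨j, hlt⟩
      simp only at h2
      rw [h2]
      have hle : (j : ℕ) ≤ B := by omega
      simp [sub, hle]
    · rw [coeff_eq_zero_of_natDegree_lt
        (lt_of_le_of_lt (bp_coeff_natDegree_le h i) (by omega : B < (j : ℕ)))]
      have hle : ¬ (j : ℕ) ≤ B := by omega
      simp [sub, hle]
  rw [← h1]
  rfl

theorem main : Pool.Agent.N89.HX.S_NF := by
  classical
  intro D B hD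
  have hfg : ∀ k : Fin (D - 1), ∃ s : Finset (S D B),
      Ideal.span (s : Set (S D B)) = RingHom.ker (φ D (k + 1) (D - 1 - k) B) := fun k =>
    (IsNoetherian.noetherian (RingHom.ker (φ D (k + 1) (D - 1 - k) B)) :
      (RingHom.ker (φ D (k + 1) (D - 1 - k) B)).FG)
  choose s hs using hfg
  refine ⟨(k : Fin (D - 1)) → {x // x ∈ s k}, inferInstance,
    fun j => ∏ k, sub D B (j k).1, ?_⟩
  intro Ω _ _ h
  rw [irr_iff hD h]
  have h1 : ∀ k : Fin (D - 1), (¬ RingHom.ker (φ D (k + 1) (D - 1 - k) B) ≤ RingHom.ker (χ h)) ↔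
      ∃ x : {x // x ∈ s k}, χ h x.1 ≠ 0 := by
    intro k
    rw [← hs k, Ideal.span_le, Set.not_subset]
    constructor
    · rintro ⟨x, hx, hx'⟩
      exact ⟨⟨x, hx⟩, fun h0 => hx' ((RingHom.mem_ker).2 h0)⟩
    · rintro ⟨⟨x, hx⟩, hx'⟩
      exact ⟨x, hx, fun h0 => hx' ((RingHom.mem_ker).1 h0)⟩
  simp only [h1, map_prod, sub_eval, Finset.prod_ne_zero_iff, Finset.mem_univ, true_implies]
  constructor
  · intro hk
    choose j hj using hk
    exact ⟨j, hj⟩
  · rintro ⟨j, hj⟩ k
    exact ⟨j k, hj k⟩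

end Pool.Agent.N568.HX.NF
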